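import Pool.Agent.KK.StmtsW
import Pool.Agent.Helper27_THC.Lll

/-!
# Row BUL (bulk): the local lemma for random bijections completes a cyclic list of slots
-/

set_option autoImplicit false
set_option linter.unusedSectionVars false

open Finset

namespace Pool.Agent.KK.H34

open Pool.Agent.KK Pool.Agent.THC.H27

/-- the position `i + j` (cyclically) -/
def pos {n k : ℕ} (i : Fin n) (j : Fin k) : Fin n := ⟨(i.1 + j.1) % n, Nat.mod_lt _ i.pos⟩

lemma pos_inj {n k : ℕ} (hk : k ≤ n) (i : Fin n) : Function.Injective (pos (k := k) i) := by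
  intro j j' h
  have h1 : (i.1 + j.1) % n = (i.1 + j'.1) % n := congrArg Fin.val h
  have h2 : j.1 % n = j'.1 % n :=
    Nat.ModEq.add_left_cancel' i.1 (h1 : (i.1 + j.1) ≡ (i.1 + j'.1) [MOD n])
  rw [Nat.mod_eq_of_lt (by omega), Nat.mod_eq_of_lt (by omega)] at h2
  exact Fin.ext h2

lemma pos_inj' {n k : ℕ} (j : Fin k) {i i' : Fin n} (h : pos i j = pos i' j) : i = i' := by
  have h1 : (i.1 + j.1) % n = (i'.1 + j.1) % n := congrArg Fin.val h
  have h2 : i.1 % n = i'.1 % n :=
    Nat.ModEq.add_right_cancel' j.1 (h1 : (i.1 + j.1) ≡ (i'.1 + j.1) [MOD n])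
  rw [Nat.mod_eq_of_lt i.2, Nat.mod_eq_of_lt i'.2] at h2
  exact Fin.ext h2

lemma rot_take {α : Type} {n k : ℕ} (hk : k ≤ n) (g : Fin n → α) (i : Fin n) :
    ((List.ofFn g).rotate i).take k = List.ofFn fun j : Fin k => g (pos i j) := by
  apply List.ext_getElem
  · simp [hk]
  · intro j h1 h2
    simp only [List.getElem_take, List.getElem_rotate, List.getElem_ofFn]
    congr 1
    apply Fin.ext
    simp [pos, add_comm]

lemma mem_image_any {α β : Type} (inst : DecidableEq β) {f : α → β} {s : Finset α} {b : β}
    (h : b ∈ @Finset.image α β inst f s) : ∃ a ∈ s, f a = b := Finset.mem_image.mp h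

lemma mem_filter_any {α : Type} {P : α → Prop} (inst : DecidablePred P) {s : Finset α} {a : α}
    (h : a ∈ @Finset.filter α P inst s) : P a := (Finset.mem_filter.mp h).2

lemma mem_Gb {α β κ : Type} [Fintype α] [Fintype β] (c : α → κ) (d : β → κ) (σ : α ≃ β)
    (h : ∀ i, d (σ i) = c i) : σ ∈ Gb c d := by
  classical
  rw [Gb]
  simp only [mem_filter, mem_univ, true_and]
  exact h

variable {V : Type} [Fintype V] [DecidableEq V]

/-- the weight of a slot -/
noncomputable def g0 (n : ℕ) (x : Slot V) : ℝ := if x.isRight = true then 16 / (n : ℝ) else 1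

lemma prod_g0 (n : ℕ) (s : List (Slot V)) : (s.map (g0 n)).prod = (16 / (n : ℝ)) ^ fr s := by
  induction s with
  | nil => simp [fr]
  | cons x s ih =>
    rw [List.map_cons, List.prod_cons, ih]
    unfold fr
    rw [List.countP_cons]
    unfold g0
    split_ifs with h
    · rw [pow_succ, mul_comm]
    · simp

lemma fr_le (s : List (Slot V)) : fr s ≤ s.length := List.countP_le_length

lemma mem_fx {L : List (Slot V)} {v : V} : v ∈ fx L ↔ Sum.inl v ∈ L := by
  unfold fx
  rw [List.mem_filterMap]
  constructor
  · rintro ⟨x, hx, h⟩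
    rcases x with x | x
    · simp at h
      rw [← h]; exact hx
    · simp at h
  · intro h
    exact ⟨_, h, rfl⟩

/-- a fixed vertex has one position -/
lemma fixed_unique {L : List (Slot V)} (hL : (fx L).Nodup) {x y : Fin L.length} {v : V}
    (hx : L.get x = Sum.inl v) (hy : L.get y = Sum.inl v) : x = y := by
  unfold fx at hL
  rw [List.Nodup, List.pairwise_filterMap, List.pairwise_iff_get] at hL
  rcases lt_trichotomy x y with h | h | h
  · exact absurd rfl (hL x y h v (by rw [hx]; rfl) v (by rw [hy]; rfl))
  · exact h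
  · exact absurd rfl (hL y x h v (by rw [hy]; rfl) v (by rw [hx]; rfl))

lemma card_fixed {L : List (Slot V)} (hL : (fx L).Nodup) :
    (univ.filter fun x : Fin L.length => (L.get x).isRight = false).card ≤ (fx L).length := by
  classical
  rcases isEmpty_or_nonempty V with hV | ⟨⟨v0⟩⟩
  · rw [card_eq_zero.mpr]
    · omega
    · rw [filter_eq_empty_iff]
      intro x _
      rcases h : L.get x with v | b
      · exact (hV.false v).elim
      · simp
  · have h1 : (univ.filter fun x : Fin L.length => (L.get x).isRight = false).card ≤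
        (fx L).toFinset.card := by
      apply card_le_card_of_injOn (fun x => (L.get x).elim id fun _ => v0)
      · intro x hx
        rw [mem_coe, mem_filter] at hx
        rw [mem_coe, List.mem_toFinset, mem_fx]
        rcases h : L.get x with v | b
        · show Sum.inl ((L.get x).elim id fun _ => v0) ∈ L
          rw [h]
          show Sum.inl v ∈ L
          rw [← h]
          exact List.get_mem L x
        · rw [h] at hx
          simp at hx
      · intro x hx y hy hxy
        rw [mem_coe, mem_filter] at hx hy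
        rcases h : L.get x with v | b
        · rcases h' : L.get y with v' | b'
          · simp only [h, h', Sum.elim_inl, id] at hxy
            rw [← hxy] at h'
            exact fixed_unique hL h h'
          · rw [h'] at hy
            simp at hy
        · rw [h] at hx
          simp at hx
    exact h1.trans (List.toFinset_card_le _)

section

variable (H : Finset (Finset V)) (X : Finset V) (L : List (Slot V)) (k : ℕ)

/-- the window at `i` -/
def win (i : Fin L.length) : List (Slot V) := List.ofFn fun j : Fin k => L.get (pos i j)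

open scoped Classical in
/-- the events of the window `i` -/
noncomputable def Bad (i : Fin L.length) : Finset (Fin k → V) :=
  univ.filter fun e => List.ofFn e ∈ BadC H X (win L k i) ∧
    ∀ j, (L.get (pos i j)).isRight = true → e j ∉ fx L

/-- the weight of the window -/
noncomputable def W (i : Fin L.length) : ℝ :=
  ∏ j : Fin k, g0 (Fintype.card V) (L.get (pos i j))

end

variable {H : Finset (Finset V)} {X : Finset V} {L : List (Slot V)} {k : ℕ}

lemma g0_nonneg (n : ℕ) (x : Slot V) : 0 ≤ g0 n x := by
  unfold g0; split_ifs <;> positivity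

lemma W_nonneg (i : Fin L.length) : 0 ≤ W L k i := prod_nonneg fun _ _ => g0_nonneg _ _

lemma W_eq (i : Fin L.length) : W L k i = (16 / (Fintype.card V : ℝ)) ^ fr (win L k i) := by
  rw [← prod_g0, W, win, List.map_ofFn, List.prod_ofFn]
  rfl

lemma length_win (i : Fin L.length) : (win L k i).length = k := by simp [win]

lemma badC_finite (s : List (Slot V)) : (BadC H X s).Finite := by
  apply (List.finite_length_eq V s.length).subset
  intro e he
  exact he.1.length_eq.symm

/-- number of events of one window -/
lemma card_bad (i : Fin L.length) (hn : 0 < Fintype.card V) {ε : ℝ} (hε : 0 ≤ ε)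
    (h : OKs H X ε (win L k i)) : ((Bad H X L k i).card : ℝ) * W L k i ≤ 16 ^ k * ε := by
  classical
  have h1 : (Bad H X L k i).card ≤ (BadC H X (win L k i)).ncard := by
    rw [← Set.ncard_coe_finset]
    refine Set.ncard_le_ncard_of_injOn List.ofFn ?_ ?_ (badC_finite _)
    · intro e he
      rw [mem_coe, Bad, mem_filter] at he
      exact he.2.1
    · intro e _ e' _ h
      exact List.ofFn_injective h
  have h2 : ((Bad H X L k i).card : ℝ) ≤ ε * (Fintype.card V : ℝ) ^ fr (win L k i) := by
    refine le_trans ?_ h
    exact_mod_cast h1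
  have hn' : (0 : ℝ) < Fintype.card V := by exact_mod_cast hn
  rw [W_eq]
  calc ((Bad H X L k i).card : ℝ) * (16 / (Fintype.card V : ℝ)) ^ fr (win L k i)
      ≤ ε * (Fintype.card V : ℝ) ^ fr (win L k i) *
        (16 / (Fintype.card V : ℝ)) ^ fr (win L k i) := by gcongr
    _ = ε * 16 ^ fr (win L k i) := by
        rw [mul_assoc, ← mul_pow]
        congr 2
        field_simp
    _ ≤ ε * 16 ^ k := by
        gcongr
        · norm_num
        · exact (fr_le _).trans (length_win i).le
    _ = _ := mul_comm _ _

/-- the slots of an event -/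
lemma bad_fit {i : Fin L.length} {e : Fin k → V} (he : e ∈ Bad H X L k i) (j : Fin k) :
    Fit X (L.get (pos i j)) (e j) := by
  classical
  rw [Bad, mem_filter] at he
  have h1 := he.2.1.1
  have h2 := h1.get (i := j.1) (by simp [win]) (by simp)
  simpa [win] using h2

lemma bad_right {i : Fin L.length} {e : Fin k → V} (he : e ∈ Bad H X L k i) (j : Fin k)
    (hj : (L.get (pos i j)).isRight = true) : e j ∉ fx L := by
  classical
  rw [Bad, mem_filter] at he
  exact he.2.2 j hj

/-- sum over the windows which contain a given position at a given place -/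
lemma sum_pos (C : ℝ) (x : Fin L.length) (j : Fin k) (F : Fin L.length → ℝ)
    (hF : ∀ i, F i ≤ C) (hC : 0 ≤ C) :
    ∑ i : Fin L.length, (if pos i j = x then F i else 0) ≤ C := by
  classical
  by_cases h : ∃ i₀ : Fin L.length, pos i₀ j = x
  · obtain ⟨i₀, h0⟩ := h
    rw [Finset.sum_eq_single i₀]
    · rw [if_pos h0]; exact hF i₀
    · intro i _ hi
      rw [if_neg]
      intro h1
      exact hi (pos_inj' j (h1.trans h0.symm))
    · intro h1; exact absurd (mem_univ _) h1
  · push Not at h
    rw [Finset.sum_eq_zero]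
    · exact hC
    · intro i _; rw [if_neg (h i)]

/-- the events through a fixed vertex -/
lemma through_fixed (hL : (fx L).Nodup) {C : ℝ} (hC : 0 ≤ C)
    (hB : ∀ i : Fin L.length, ((Bad H X L k i).card : ℝ) * W L k i ≤ C) {v : V} (hv : v ∈ fx L) :
    ∑ i : Fin L.length, ((((Bad H X L k i).filter fun e => ∃ j, e j = v).card : ℝ) * W L k i) ≤
      k * C := by
  classical
  obtain ⟨x, hx⟩ : ∃ x : Fin L.length, L.get x = Sum.inl v := List.get_of_mem (mem_fx.mp hv)
  have h1 : ∀ i : Fin L.length,
      (((Bad H X L k i).filter fun e => ∃ j, e j = v).card : ℝ) * W L k i ≤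
      ∑ j : Fin k, (if pos i j = x then ((Bad H X L k i).card : ℝ) * W L k i else 0) := by
    intro i
    by_cases h : ∃ j : Fin k, pos i j = x
    · obtain ⟨j, hj⟩ := h
      refine le_trans ?_ (single_le_sum (fun j' _ => ?_) (mem_univ j))
      · rw [if_pos hj]
        apply mul_le_mul_of_nonneg_right _ (W_nonneg i)
        exact_mod_cast card_filter_le _ _
      · split_ifs
        · exact mul_nonneg (by positivity) (W_nonneg i)
        · exact le_rfl
    · push Not at h
      have h2 : (Bad H X L k i).filter (fun e => ∃ j, e j = v) = ∅ := by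
        rw [filter_eq_empty_iff]
        rintro e he ⟨j, hj⟩
        have h3 := bad_fit he j
        rcases h4 : L.get (pos i j) with v' | b
        · rw [h4] at h3
          have h5 : v' = v := h3.trans hj
          rw [h5] at h4
          exact h j (fixed_unique hL h4 hx)
        · have h5 := bad_right he j (by rw [h4]; rfl)
          rw [hj] at h5
          exact h5 hv
      rw [h2]
      simp only [card_empty, Nat.cast_zero, zero_mul]
      apply sum_nonneg
      intro j _
      rw [if_neg (h j)]
  calc _ ≤ ∑ i : Fin L.length, ∑ j : Fin k,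
          (if pos i j = x then ((Bad H X L k i).card : ℝ) * W L k i else 0) :=
        sum_le_sum fun i _ => h1 i
    _ = ∑ j : Fin k, ∑ i : Fin L.length,
          (if pos i j = x then ((Bad H X L k i).card : ℝ) * W L k i else 0) := sum_comm
    _ ≤ ∑ _j : Fin k, C := sum_le_sum fun j _ => sum_pos C x j _ hB hC
    _ = k * C := by simp

/-- the events of one window through a vertex at a free slot -/
lemma through_slot (i : Fin L.length) (hn : 0 < Fintype.card V) (j : Fin k) (v : V)
    (hj : (L.get (pos i j)).isRight = true) :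
    (((Bad H X L k i).filter fun e => e j = v).card : ℝ) * W L k i ≤
      16 ^ k / (Fintype.card V : ℝ) := by
  classical
  have hn' : (0 : ℝ) < Fintype.card V := by exact_mod_cast hn
  have hn1 : (1 : ℝ) ≤ Fintype.card V := by exact_mod_cast hn
  set A : Fin k → Finset V := fun j' => if j' = j then {v} else
    (L.get (pos i j')).elim (fun v' => {v'}) (fun _ => univ) with hA
  have h1 : (Bad H X L k i).filter (fun e => e j = v) ⊆ Fintype.piFinset A := by
    intro e he
    rw [mem_filter] at he
    rw [Fintype.mem_piFinset]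
    intro j'
    simp only [hA]
    by_cases h : j' = j
    · rw [if_pos h, mem_singleton, h]; exact he.2
    · rw [if_neg h]
      have h3 := bad_fit he.1 j'
      rcases h4 : L.get (pos i j') with v' | b
      · rw [h4] at h3
        exact mem_singleton.mpr (Eq.symm h3)
      · exact mem_univ _
  have h2 : (((Bad H X L k i).filter fun e => e j = v).card : ℝ) ≤
      ∏ j' : Fin k, ((A j').card : ℝ) := by
    have := card_le_card h1
    rw [Fintype.card_piFinset] at this
    exact_mod_cast this
  calc _ ≤ (∏ j' : Fin k, ((A j').card : ℝ)) * W L k i :=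
        mul_le_mul_of_nonneg_right h2 (W_nonneg i)
    _ = ∏ j' : Fin k, (((A j').card : ℝ) * g0 (Fintype.card V) (L.get (pos i j'))) := by
        rw [prod_mul_distrib, W]
    _ ≤ ∏ j' : Fin k, (16 * if j' = j then 1 / (Fintype.card V : ℝ) else 1) := by
        apply prod_le_prod
        · intro j' _; exact mul_nonneg (by positivity) (g0_nonneg _ _)
        · intro j' _
          by_cases h : j' = j
          · subst h
            simp only [hA, if_true, card_singleton, Nat.cast_one, one_mul]
            rw [g0, if_pos hj]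
            exact le_of_eq (by ring)
          · rw [if_neg h]
            simp only [hA, if_neg h]
            rcases h4 : L.get (pos i j') with v' | b
            · simp only [Sum.elim_inl, card_singleton, Nat.cast_one, one_mul]
              rw [g0, if_neg (by simp)]
              norm_num
            · simp only [Sum.elim_inr]
              rw [g0, if_pos (by simp), card_univ]
              exact le_of_eq (by field_simp)
    _ = 16 ^ k / (Fintype.card V : ℝ) := by
        rw [prod_mul_distrib, prod_const, card_univ, Fintype.card_fin,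
          prod_ite_eq' univ j (fun _ => 1 / (Fintype.card V : ℝ)), if_pos (mem_univ _)]
        ring

/-- the events of one window through a vertex which is not fixed -/
lemma filter_exists_le (i : Fin L.length) {v : V} (hv : v ∉ fx L) {D : ℝ} (hD : 0 ≤ D)
    (h : ∀ j : Fin k, (L.get (pos i j)).isRight = true →
      (((Bad H X L k i).filter fun e => e j = v).card : ℝ) * W L k i ≤ D) :
    (((Bad H X L k i).filter fun e => ∃ j, e j = v).card : ℝ) * W L k i ≤ k * D := by
  classical
  have h1 : ∀ j : Fin k, (((Bad H X L k i).filter fun e => e j = v).card : ℝ) * W L k i ≤ D := by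
    intro j
    by_cases hj : (L.get (pos i j)).isRight = true
    · exact h j hj
    · have h2 : (Bad H X L k i).filter (fun e => e j = v) = ∅ := by
        rw [filter_eq_empty_iff]
        intro e he hev
        have h3 := bad_fit he j
        rcases h4 : L.get (pos i j) with v' | b
        · rw [h4] at h3
          have h5 : v' = v := h3.trans hev
          apply hv
          rw [mem_fx, ← h5, ← h4]
          exact List.get_mem L _
        · rw [h4] at hj
          exact hj rfl
      rw [h2]
      simpa using hD
  have h2 : (Bad H X L k i).filter (fun e => ∃ j, e j = v) ⊆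
      univ.biUnion fun j : Fin k => (Bad H X L k i).filter fun e => e j = v := by
    intro e he
    rw [mem_filter] at he
    obtain ⟨he, j, hj⟩ := he
    exact mem_biUnion.mpr ⟨j, mem_univ _, mem_filter.mpr ⟨he, hj⟩⟩
  have h3 : (((Bad H X L k i).filter fun e => ∃ j, e j = v).card : ℝ) ≤
      ∑ j : Fin k, (((Bad H X L k i).filter fun e => e j = v).card : ℝ) := by
    exact_mod_cast (card_le_card h2).trans card_biUnion_le
  calc _ ≤ (∑ j : Fin k, (((Bad H X L k i).filter fun e => e j = v).card : ℝ)) * W L k i :=
        mul_le_mul_of_nonneg_right h3 (W_nonneg i)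
    _ = ∑ j : Fin k, (((Bad H X L k i).filter fun e => e j = v).card : ℝ) * W L k i :=
        sum_mul _ _ _
    _ ≤ ∑ _j : Fin k, D := sum_le_sum fun j _ => h1 j
    _ = k * D := by simp

/-- the events of a completely free window through a vertex -/
lemma free_window (i : Fin L.length) (hn : 0 < Fintype.card V) (hk : 1 ≤ k) {ε : ℝ} (hε : 0 ≤ ε)
    (hfree : ∀ j : Fin k, (L.get (pos i j)).isRight = true) (v : V)
    (hv : ∀ u₁ u₂ : List Bool, u₁.length + 1 + u₂.length = k →
      (fw u₁ ++ Sum.inr (decide (v ∈ X)) :: fw u₂ : List (Slot V)) = win L k i →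
      ((BadC H X (fw u₁ ++ Sum.inl v :: fw u₂)).ncard : ℝ) ≤
        ε * (Fintype.card V : ℝ) ^ (k - 1)) (j : Fin k) :
    (((Bad H X L k i).filter fun e => e j = v).card : ℝ) * W L k i ≤
      16 ^ k * ε / (Fintype.card V : ℝ) := by
  classical
  have hn' : (0 : ℝ) < Fintype.card V := by exact_mod_cast hn
  have hW : W L k i = (16 / (Fintype.card V : ℝ)) ^ k := by
    rw [W, prod_congr rfl (g := fun _ => 16 / (Fintype.card V : ℝ))]
    · rw [prod_const, card_univ, Fintype.card_fin]
    · intro j' _; rw [g0, if_pos (hfree j')]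
  rcases ((Bad H X L k i).filter fun e => e j = v).eq_empty_or_nonempty with h0 | ⟨e0, he0⟩
  · rw [h0]
    simp only [card_empty, Nat.cast_zero, zero_mul]
    positivity
  · rw [mem_filter] at he0
    obtain ⟨b, hb⟩ : ∃ b : Fin k → Bool, ∀ j', L.get (pos i j') = Sum.inr (b j') := by
      refine ⟨fun j' => (L.get (pos i j')).elim (fun _ => true) id, fun j' => ?_⟩
      rcases h : L.get (pos i j') with v' | b
      · have := hfree j'
        rw [h] at this
        simp at this
      · show _ = Sum.inr ((L.get (pos i j')).elim (fun _ => true) id)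
        rw [h]
        rfl
    have hwin : win L k i = fw (List.ofFn b) := by
      rw [win, fw, List.map_ofFn]
      congr 1
      funext j'
      exact hb j'
    have hbj : b j = decide (v ∈ X) := by
      have h1 := bad_fit he0.1 j
      rw [hb j, he0.2] at h1
      have h2 : v ∈ X ↔ b j = true := h1
      rcases h3 : b j with _ | _
      · rw [h3] at h2
        simp at h2
        simp [h2]
      · rw [h3] at h2
        simp at h2
        simp [h2]
    have hsplit : ∀ (α : Type) (f : Fin k → α), List.ofFn f =
        (List.ofFn f).take j.1 ++ f j :: (List.ofFn f).drop (j.1 + 1) := by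
      intro α f
      have h1 : j.1 < (List.ofFn f).length := by simp
      have h2 := List.take_append_drop j.1 (List.ofFn f)
      rw [List.drop_eq_getElem_cons h1] at h2
      rw [List.getElem_ofFn] at h2
      exact h2.symm
    set u₁ := (List.ofFn b).take j.1 with hu₁
    set u₂ := (List.ofFn b).drop (j.1 + 1) with hu₂
    have hlen : u₁.length + 1 + u₂.length = k := by
      rw [hu₁, hu₂]
      simp only [List.length_take, List.length_drop, List.length_ofFn]
      omega
    have hw2 : (fw u₁ ++ Sum.inr (decide (v ∈ X)) :: fw u₂ : List (Slot V)) = win L k i := by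
      rw [hwin, hsplit Bool b, hbj]
      simp [fw, hu₁, hu₂]
    have h1 := hv u₁ u₂ hlen hw2
    have h2 : ((Bad H X L k i).filter fun e => e j = v).card ≤
        (BadC H X (fw u₁ ++ Sum.inl v :: fw u₂)).ncard := by
      rw [← Set.ncard_coe_finset]
      refine Set.ncard_le_ncard_of_injOn List.ofFn ?_ ?_ (badC_finite _)
      · intro e he
        rw [mem_coe, mem_filter] at he
        obtain ⟨he1, he2⟩ := he
        have he3 := he1
        rw [Bad, mem_filter] at he3
        obtain ⟨-, ⟨h4, h5, h6⟩, -⟩ := he3
        refine ⟨?_, h5, h6⟩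
        rw [hsplit V e, he2]
        rw [← hw2, hsplit V e, he2] at h4
        have hl1 : (fw u₁ : List (Slot V)).length = ((List.ofFn e).take j.1).length := by
          rw [hu₁]; simp [fw]
        have h7 : List.Forall₂ (Fit X) (fw u₁) ((List.ofFn e).take j.1) ∧
            List.Forall₂ (Fit X) (Sum.inr (decide (v ∈ X)) :: fw u₂)
              (v :: (List.ofFn e).drop (j.1 + 1)) := by
          have h8 := List.forall₂_take (fw u₁ : List (Slot V)).length h4
          have h9 := List.forall₂_drop (fw u₁ : List (Slot V)).length h4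
          rw [List.take_left', List.take_left' hl1.symm] at h8
          · rw [List.drop_left', List.drop_left' hl1.symm] at h9
            · exact ⟨h8, h9⟩
            · rfl
          · rfl
        obtain ⟨h8, h9⟩ := h7
        rw [List.forall₂_cons] at h9
        exact List.rel_append h8 (List.Forall₂.cons rfl h9.2)
      · intro e _ e' _ h
        exact List.ofFn_injective h
    have h3 : (((Bad H X L k i).filter fun e => e j = v).card : ℝ) ≤
        ε * (Fintype.card V : ℝ) ^ (k - 1) := le_trans (by exact_mod_cast h2) h1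
    rw [hW]
    obtain ⟨k', rfl⟩ : ∃ k', k = k' + 1 := ⟨k - 1, by omega⟩
    calc _ ≤ ε * (Fintype.card V : ℝ) ^ (k' + 1 - 1) * (16 / (Fintype.card V : ℝ)) ^ (k' + 1) :=
          mul_le_mul_of_nonneg_right h3 (by positivity)
      _ = 16 ^ (k' + 1) * ε / (Fintype.card V : ℝ) := by
          rw [Nat.add_sub_cancel, div_pow]
          field_simp
          ring

/-- the number of windows with a fixed slot -/
lemma card_mixed (hL : (fx L).Nodup) :
    (univ.filter fun i : Fin L.length => ∃ j : Fin k, (L.get (pos i j)).isRight = false).card ≤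
      k * (fx L).length := by
  classical
  have h1 : (univ.filter fun i : Fin L.length =>
      ∃ j : Fin k, (L.get (pos i j)).isRight = false) ⊆
      univ.biUnion fun j : Fin k => univ.filter fun i : Fin L.length =>
        (L.get (pos i j)).isRight = false := by
    intro i hi
    rw [mem_filter] at hi
    obtain ⟨-, j, hj⟩ := hi
    exact mem_biUnion.mpr ⟨j, mem_univ _, mem_filter.mpr ⟨mem_univ _, hj⟩⟩
  have h2 : ∀ j : Fin k, (univ.filter fun i : Fin L.length =>
      (L.get (pos i j)).isRight = false).card ≤ (fx L).length := by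
    intro j
    refine le_trans ?_ (card_fixed hL)
    apply card_le_card_of_injOn (fun i => pos i j)
    · intro i hi
      rw [mem_coe, mem_filter] at hi ⊢
      exact ⟨mem_univ _, hi.2⟩
    · intro i _ i' _ h
      exact pos_inj' j h
  calc _ ≤ _ := card_le_card h1
    _ ≤ ∑ j : Fin k, (univ.filter fun i : Fin L.length =>
        (L.get (pos i j)).isRight = false).card := card_biUnion_le
    _ ≤ ∑ _j : Fin k, (fx L).length := sum_le_sum fun j _ => h2 j
    _ = k * (fx L).length := by simp

/-- the events through a vertex which is not fixed -/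
lemma through_free (hL : (fx L).Nodup) (hlen : L.length = Fintype.card V)
    (hn : 0 < Fintype.card V) (hk : 1 ≤ k) {ε : ℝ}
    (hε : 0 ≤ ε) (hfx : ((fx L).length : ℝ) ≤ ε * (Fintype.card V : ℝ)) {v : V} (hv : v ∉ fx L)
    (hvw : ∀ (i : Fin L.length) (u₁ u₂ : List Bool), u₁.length + 1 + u₂.length = k →
      (fw u₁ ++ Sum.inr (decide (v ∈ X)) :: fw u₂ : List (Slot V)) = win L k i →
      ((BadC H X (fw u₁ ++ Sum.inl v :: fw u₂)).ncard : ℝ) ≤
        ε * (Fintype.card V : ℝ) ^ (k - 1)) :
    ∑ i : Fin L.length, ((((Bad H X L k i).filter fun e => ∃ j, e j = v).card : ℝ) * W L k i) ≤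
      ((k : ℝ) ^ 2 + k) * (16 ^ k * ε) := by
  classical
  have hn' : (0 : ℝ) < Fintype.card V := by exact_mod_cast hn
  have h1 : ∀ i : Fin L.length,
      (((Bad H X L k i).filter fun e => ∃ j, e j = v).card : ℝ) * W L k i ≤
      k * (16 ^ k * ε / (Fintype.card V : ℝ)) +
        (if ∃ j : Fin k, (L.get (pos i j)).isRight = false then
          k * (16 ^ k / (Fintype.card V : ℝ)) else 0) := by
    intro i
    by_cases h : ∃ j : Fin k, (L.get (pos i j)).isRight = false
    · rw [if_pos h]
      have h2 := filter_exists_le (H := H) (X := X) i hv (D := 16 ^ k / (Fintype.card V : ℝ))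
        (by positivity) (fun j hj => through_slot i hn j v hj)
      have h3 : 0 ≤ (k : ℝ) * (16 ^ k * ε / (Fintype.card V : ℝ)) := by positivity
      linarith
    · rw [if_neg h, add_zero]
      push Not at h
      have hfree : ∀ j : Fin k, (L.get (pos i j)).isRight = true := fun j => by
        have := h j
        simpa using this
      exact filter_exists_le (H := H) (X := X) i hv (by positivity)
        (fun j _ => free_window i hn hk hε hfree v (fun u₁ u₂ h1 h2 => hvw i u₁ u₂ h1 h2) j)
  have h2 := card_mixed (k := k) hL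
  have h3 : ((univ.filter fun i : Fin L.length =>
      ∃ j : Fin k, (L.get (pos i j)).isRight = false).card : ℝ) ≤ k * (fx L).length := by
    exact_mod_cast h2
  calc _ ≤ ∑ i : Fin L.length, (k * (16 ^ k * ε / (Fintype.card V : ℝ)) +
        (if ∃ j : Fin k, (L.get (pos i j)).isRight = false then
          k * (16 ^ k / (Fintype.card V : ℝ)) else 0)) := sum_le_sum fun i _ => h1 i
    _ = (L.length : ℝ) * (k * (16 ^ k * ε / (Fintype.card V : ℝ))) +
        ((univ.filter fun i : Fin L.length =>
          ∃ j : Fin k, (L.get (pos i j)).isRight = false).card : ℝ) *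
          (k * (16 ^ k / (Fintype.card V : ℝ))) := by
        rw [sum_add_distrib, sum_const, card_univ, Fintype.card_fin, nsmul_eq_mul, ← sum_filter,
          sum_const, nsmul_eq_mul]
    _ ≤ (Fintype.card V : ℝ) * (k * (16 ^ k * ε / (Fintype.card V : ℝ))) +
        (k * (ε * (Fintype.card V : ℝ))) * (k * (16 ^ k / (Fintype.card V : ℝ))) := by
        have hlen' : (L.length : ℝ) = (Fintype.card V : ℝ) := by exact_mod_cast hlen
        rw [hlen']
        have h4 : ((univ.filter fun i : Fin L.length =>
          ∃ j : Fin k, (L.get (pos i j)).isRight = false).card : ℝ) ≤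
            k * (ε * (Fintype.card V : ℝ)) :=
          h3.trans (mul_le_mul_of_nonneg_left hfx (by positivity))
        have h5 : 0 ≤ (k : ℝ) * (16 ^ k / (Fintype.card V : ℝ)) := by positivity
        have h6 := mul_le_mul_of_nonneg_right h4 h5
        linarith
    _ = ((k : ℝ) ^ 2 + k) * (16 ^ k * ε) := by
        field_simp
        ring

open scoped Classical in
/-- events -/
abbrev J (H : Finset (Finset V)) (X : Finset V) (L : List (Slot V)) (k : ℕ) : Type :=
  (i : Fin L.length) × {e : Fin k → V // e ∈ Bad H X L k i}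

open scoped Classical in
/-- the positions of an event -/
noncomputable def ES (p : J H X L k) : Finset (Fin L.length) :=
  univ.image fun j : Fin k => pos p.1 j

/-- the values of an event -/
noncomputable def EF (hk : 0 < k) (p : J H X L k) : Fin L.length → V :=
  Function.extend (pos p.1) p.2.1 (fun _ => p.2.1 ⟨0, hk⟩)

lemma EF_pos (hk : 0 < k) (hkn : k ≤ L.length) (p : J H X L k) (j : Fin k) :
    EF hk p (pos p.1 j) = p.2.1 j := (pos_inj hkn p.1).extend_apply _ _ _

lemma sum_nb (hk : 0 < k) (hkn : k ≤ L.length) {C : ℝ} (hC : 0 ≤ C)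
    (hB : ∀ i : Fin L.length, ((Bad H X L k i).card : ℝ) * W L k i ≤ C)
    (hV : ∀ v : V, ∑ i : Fin L.length,
      ((((Bad H X L k i).filter fun e => ∃ j, e j = v).card : ℝ) * W L k i) ≤
        ((k : ℝ) ^ 2 + k) * C)
    (q : J H X L k) (F : Finset (J H X L k)) (hF : ∀ p ∈ F, Nb ES (EF hk) q p) :
    ∑ p ∈ F, W L k p.1 ≤ ((k : ℝ) ^ 3 + 2 * k ^ 2) * C := by
  classical
  -- the indicator bound
  have h1 : ∀ p ∈ F, W L k p.1 ≤
      (∑ j : Fin k, ∑ j' : Fin k, if pos p.1 j' = pos q.1 j then W L k p.1 else 0) +
      ∑ j : Fin k, if ∃ j', p.2.1 j' = q.2.1 j then W L k p.1 else 0 := by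
    intro p hp
    have hn1 : ∀ j : Fin k, ∀ j' : Fin k,
        0 ≤ if pos p.1 j' = pos q.1 j then W L k p.1 else 0 := by
      intro j j'; split_ifs
      · exact W_nonneg _
      · exact le_rfl
    have hn2 : ∀ j : Fin k, 0 ≤ if ∃ j', p.2.1 j' = q.2.1 j then W L k p.1 else 0 := by
      intro j; split_ifs
      · exact W_nonneg _
      · exact le_rfl
    rcases hF p hp with h | h
    · rw [not_disjoint_iff] at h
      obtain ⟨x, hx, hx'⟩ := h
      rw [ES, mem_image] at hx hx'
      obtain ⟨j, -, hj⟩ := hx
      obtain ⟨j', -, hj'⟩ := hx'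
      have h2 : W L k p.1 ≤
          ∑ j : Fin k, ∑ j' : Fin k, if pos p.1 j' = pos q.1 j then W L k p.1 else 0 := by
        refine le_trans ?_ (single_le_sum (fun j _ => sum_nonneg fun j' _ => hn1 j j')
          (mem_univ j))
        refine le_trans ?_ (single_le_sum (fun j' _ => hn1 j j') (mem_univ j'))
        rw [if_pos (hj'.trans hj.symm)]
      have h3 := sum_nonneg (s := (univ : Finset (Fin k))) fun j _ => hn2 j
      linarith
    · rw [not_disjoint_iff] at h
      obtain ⟨v, hv, hv'⟩ := h
      obtain ⟨x, hx, hxv⟩ := mem_image_any _ hv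
      obtain ⟨x', hx', hxv'⟩ := mem_image_any _ hv'
      rw [ES, mem_image] at hx hx'
      obtain ⟨j, -, hj⟩ := hx
      obtain ⟨j', -, hj'⟩ := hx'
      rw [← hj, EF_pos hk hkn] at hxv
      rw [← hj', EF_pos hk hkn] at hxv'
      have h2 : W L k p.1 ≤ ∑ j : Fin k, if ∃ j', p.2.1 j' = q.2.1 j then W L k p.1 else 0 := by
        refine le_trans ?_ (single_le_sum (fun j _ => hn2 j) (mem_univ j))
        rw [if_pos ⟨j', hxv'.trans hxv.symm⟩]
      have h3 := sum_nonneg (s := (univ : Finset (Fin k))) fun j _ =>
        sum_nonneg (s := (univ : Finset (Fin k))) fun j' _ => hn1 j j'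
      linarith
  have hnn : ∀ p : J H X L k, 0 ≤
      (∑ j : Fin k, ∑ j' : Fin k, if pos p.1 j' = pos q.1 j then W L k p.1 else 0) +
      ∑ j : Fin k, if ∃ j', p.2.1 j' = q.2.1 j then W L k p.1 else 0 := by
    intro p
    apply add_nonneg
    · apply sum_nonneg; intro j _; apply sum_nonneg; intro j' _; split_ifs
      · exact W_nonneg _
      · exact le_rfl
    · apply sum_nonneg; intro j _; split_ifs
      · exact W_nonneg _
      · exact le_rfl
  have hA : ∀ j j' : Fin k, ∑ p : J H X L k,
      (if pos p.1 j' = pos q.1 j then W L k p.1 else 0) ≤ C := by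
    intro j j'
    rw [Fintype.sum_sigma]
    have h2 : ∀ i : Fin L.length, ∑ e : {e : Fin k → V // e ∈ Bad H X L k i},
        (if pos i j' = pos q.1 j then W L k i else 0) =
        if pos i j' = pos q.1 j then ((Bad H X L k i).card : ℝ) * W L k i else 0 := by
      intro i
      rw [sum_const, card_univ, Fintype.card_coe, nsmul_eq_mul]
      split_ifs <;> simp
    simp only [h2]
    exact sum_pos C _ j' _ hB hC
  have hD : ∀ j : Fin k, ∑ p : J H X L k,
      (if ∃ j', p.2.1 j' = q.2.1 j then W L k p.1 else 0) ≤ ((k : ℝ) ^ 2 + k) * C := by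
    intro j
    rw [Fintype.sum_sigma]
    refine le_trans (le_of_eq (sum_congr rfl fun i _ => ?_)) (hV (q.2.1 j))
    have h3 := Finset.sum_coe_sort (Bad H X L k i)
      (fun e => if ∃ j', e j' = q.2.1 j then W L k i else 0)
    simp only at h3 ⊢
    rw [h3, ← sum_filter, sum_const, nsmul_eq_mul]
  calc ∑ p ∈ F, W L k p.1 ≤ ∑ p ∈ F,
      ((∑ j : Fin k, ∑ j' : Fin k, if pos p.1 j' = pos q.1 j then W L k p.1 else 0) +
      ∑ j : Fin k, if ∃ j', p.2.1 j' = q.2.1 j then W L k p.1 else 0) := sum_le_sum h1
    _ ≤ ∑ p : J H X L k,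
      ((∑ j : Fin k, ∑ j' : Fin k, if pos p.1 j' = pos q.1 j then W L k p.1 else 0) +
      ∑ j : Fin k, if ∃ j', p.2.1 j' = q.2.1 j then W L k p.1 else 0) :=
        sum_le_sum_of_subset_of_nonneg (subset_univ _) fun p _ _ => hnn p
    _ = (∑ j : Fin k, ∑ j' : Fin k, ∑ p : J H X L k,
          (if pos p.1 j' = pos q.1 j then W L k p.1 else 0)) +
        ∑ j : Fin k, ∑ p : J H X L k,
          (if ∃ j', p.2.1 j' = q.2.1 j then W L k p.1 else 0) := by
        rw [sum_add_distrib, sum_comm]
        congr 1
        · exact sum_congr rfl fun j _ => sum_comm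
        · exact sum_comm
    _ ≤ (∑ _j : Fin k, ∑ _j' : Fin k, C) + ∑ _j : Fin k, ((k : ℝ) ^ 2 + k) * C :=
        add_le_add (sum_le_sum fun j _ => sum_le_sum fun j' _ => hA j j')
          (sum_le_sum fun j _ => hD j)
    _ = ((k : ℝ) ^ 3 + 2 * k ^ 2) * C := by
        simp only [sum_const, card_univ, Fintype.card_fin, nsmul_eq_mul]
        ring

lemma prod_ES (hkn : k ≤ L.length) (p : J H X L k) :
    ∏ x ∈ ES p, g0 (Fintype.card V) (L.get x) = W L k p.1 := by
  classical
  rw [ES, prod_image]
  · rfl
  · intro j _ j' _ h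
    exact pos_inj hkn p.1 h

/-- Row BUL. -/
theorem bul (hCyc : CycStmt) (hFib : FibStmt) : BulkStmt := by
  intro k hk2
  have hk : 0 < k := by omega
  obtain ⟨ε, hε⟩ : ∃ ε : ℝ, ε = 1 / (8 * 16 ^ k * ((k : ℝ) ^ 3 + 2 * k ^ 2)) := ⟨_, rfl⟩
  have hkr : (2 : ℝ) ≤ k := by exact_mod_cast hk2
  have hk3 : (16 : ℝ) ≤ (k : ℝ) ^ 3 + 2 * k ^ 2 := by nlinarith [sq_nonneg ((k : ℝ) - 2)]
  have h16 : (1 : ℝ) ≤ 16 ^ k := one_le_pow₀ (by norm_num)
  have hden : (128 : ℝ) ≤ 8 * 16 ^ k * ((k : ℝ) ^ 3 + 2 * k ^ 2) := by nlinarith
  have hε0 : 0 < ε := by rw [hε]; positivity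
  have hε8 : ε ≤ 1 / 8 := by
    rw [hε]
    apply one_div_le_one_div_of_le (by norm_num)
    linarith
  have hC : ((k : ℝ) ^ 3 + 2 * k ^ 2) * (16 ^ k * ε) ≤ 1 / 4 := by
    have h1 : ((k : ℝ) ^ 3 + 2 * k ^ 2) * (16 ^ k * ε) = 1 / 8 := by
      rw [hε]
      have h2 : (0 : ℝ) < (k : ℝ) ^ 3 + 2 * k ^ 2 := by linarith
      field_simp
    rw [h1]; norm_num
  refine ⟨ε, hε0, by linarith, 16 * k, ?_⟩
  intro V _ _ H X L hn hlen hfxn hfxl hcX hX1 hX2 hOK hvert
  have hn0 : 0 < Fintype.card V := by omega
  have hn' : (0 : ℝ) < Fintype.card V := by exact_mod_cast hn0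
  have hkn : k ≤ L.length := by omega
  have hofn : List.ofFn L.get = L := List.ofFn_get L
  -- windows
  have hwin : ∀ i : Fin L.length, win L k i <:+: L ++ L.take (k - 1) := by
    intro i
    have h1 := (hCyc (Slot V) L k hk hkn (win L k i)).mpr ⟨i.1, i.2, ?_⟩
    · exact h1.1
    · have h2 := rot_take hkn L.get i
      rw [hofn] at h2
      exact h2.symm
  have hOKw : ∀ i : Fin L.length, OKs H X ε (win L k i) :=
    fun i => hOK _ (hwin i) (length_win i)
  have hB : ∀ i : Fin L.length, ((Bad H X L k i).card : ℝ) * W L k i ≤ 16 ^ k * ε :=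
    fun i => card_bad i hn0 hε0.le (hOKw i)
  have hV : ∀ v : V, ∑ i : Fin L.length,
      ((((Bad H X L k i).filter fun e => ∃ j, e j = v).card : ℝ) * W L k i) ≤
        ((k : ℝ) ^ 2 + k) * (16 ^ k * ε) := by
    intro v
    have hC0 : 0 ≤ 16 ^ k * ε := by positivity
    by_cases hv : v ∈ fx L
    · refine (through_fixed hfxn hC0 hB hv).trans ?_
      have h1 : 0 ≤ (k : ℝ) ^ 2 * (16 ^ k * ε) := by positivity
      linarith
    · refine through_free hfxn hlen hn0 hk hε0.le hfxl hv ?_
      intro i u₁ u₂ h1 h2
      apply hvert v u₁ u₂ h1 hv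
      rw [h2]
      exact hwin i
  -- the colours
  obtain ⟨d, hd⟩ : ∃ d : V → Slot V, d = fun v =>
    (if v ∈ fx L then (Sum.inl v : Slot V) else Sum.inr (decide (v ∈ X))) := ⟨_, rfl⟩
  obtain ⟨σ₀, hσ₀⟩ := hFib V X L hlen hfxn hcX
  have hne : (Gb (fun x : Fin L.length => L.get x) d).Nonempty := by
    refine ⟨σ₀, mem_Gb _ _ _ fun i => ?_⟩
    rw [hd]
    exact hσ₀ i
  have hw : ∀ x : Fin L.length, g0 (Fintype.card V) (L.get x) = 1 ∨ ∀ F : Finset V,
      (∀ b, b ∈ F ↔ d b = L.get x) →
      1 ≤ g0 (Fintype.card V) (L.get x) * ((F.card : ℝ) - (k - 1)) := by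
    intro x
    rcases h : L.get x with v | b
    · left; rw [g0, if_neg (by simp)]
    · right
      intro F hF
      rw [g0, if_pos (by simp)]
      -- the class has at least n/4 - ε n elements
      have h1 : (Fintype.card V : ℝ) / 4 - ε * Fintype.card V ≤ F.card := by
        have hsub : ∀ A : Finset V, (∀ v ∈ A, v ∉ fx L → v ∈ F) →
            (A.card : ℝ) ≤ F.card + (fx L).length := by
          intro A hA
          have h2 : A ⊆ F ∪ (fx L).toFinset := by
            intro v hv
            by_cases h3 : v ∈ fx L
            · exact mem_union_right _ (List.mem_toFinset.mpr h3)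
            · exact mem_union_left _ (hA v hv h3)
          have h3 : A.card ≤ F.card + (fx L).length :=
            (card_le_card h2).trans ((card_union_le _ _).trans
              (Nat.add_le_add_left (List.toFinset_card_le _) _))
          exact_mod_cast h3
        rcases b with _ | _
        · have h2 := hsub Xᶜ (fun v hv hvf => by
            rw [hF, hd]
            simp only
            rw [if_neg hvf]
            rw [mem_compl] at hv
            simp [hv])
          have h3 : (Fintype.card V : ℝ) ≤ 4 * (Xᶜ.card : ℝ) := by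
            have h4 := card_add_card_compl X
            have h5 : Fintype.card V ≤ 4 * Xᶜ.card := by omega
            exact_mod_cast h5
          linarith
        · have h2 := hsub X (fun v hv hvf => by
            rw [hF, hd]
            simp only
            rw [if_neg hvf]
            simp [hv])
          have h3 : (Fintype.card V : ℝ) ≤ 4 * (X.card : ℝ) := by exact_mod_cast hX1
          linarith
      have h2 : ε * (Fintype.card V : ℝ) ≤ 1 / 8 * Fintype.card V := by gcongr
      have h3 : (16 : ℝ) * k ≤ Fintype.card V := by exact_mod_cast hn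
      rw [div_mul_eq_mul_div, le_div_iff₀ hn']
      linarith
  obtain ⟨σ, hσ1, hσ2⟩ := lll_bij (J := J H X L k) (S := ES) (f := EF hk) hne k
    (fun x => g0 (Fintype.card V) (L.get x))
    (by
      intro x
      rcases hw x with h | h
      · exact Or.inl h
      · refine Or.inr (h _ fun b => ?_)
        simp only [mem_filter, mem_univ, true_and])
    (fun x => g0_nonneg _ _)
    (by
      intro p
      rw [ES]
      exact card_image_le.trans (by simp))
    (by
      intro p
      rw [ES]
      exact ⟨pos p.1 ⟨0, hk⟩, mem_image.mpr ⟨⟨0, hk⟩, mem_univ _, rfl⟩⟩)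
    (by
      intro q
      simp only [prod_ES hkn]
      refine (sum_nb hk hkn (by positivity) hB hV q _ fun p hp => ?_).trans hC
      exact mem_filter_any _ hp)
  -- the Hamilton cycle
  have hfit : ∀ x : Fin L.length, Fit X (L.get x) (σ x) ∧
      ((L.get x).isRight = true → σ x ∉ fx L) := by
    intro x
    have h1 := hσ1 x
    rw [hd] at h1
    simp only at h1
    by_cases h2 : σ x ∈ fx L
    · rw [if_pos h2] at h1
      rw [← h1]
      exact ⟨rfl, fun h => by simp at h⟩
    · rw [if_neg h2] at h1
      rw [← h1]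
      refine ⟨?_, fun _ => h2⟩
      show σ x ∈ X ↔ decide (σ x ∈ X) = true
      simp
  refine ⟨List.ofFn σ, List.nodup_ofFn.mpr σ.injective, ?_, ?_⟩
  · intro v
    rw [List.mem_ofFn]
    exact ⟨σ.symm v, σ.apply_symm_apply v⟩
  · intro s hs hsk
    have hl : (List.ofFn σ).length = L.length := List.length_ofFn
    obtain ⟨i, hi, hsi⟩ := (hCyc V (List.ofFn σ) k hk (by rw [hl]; exact hkn) s).mp ⟨hs, hsk⟩
    rw [hl] at hi
    have h1 := rot_take hkn (σ : Fin L.length → V) ⟨i, hi⟩
    have hs2 : s = List.ofFn fun j : Fin k => σ (pos (⟨i, hi⟩ : Fin L.length) j) := by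
      rw [hsi]; exact h1
    by_contra hH
    have hmem : (fun j : Fin k => σ (pos (⟨i, hi⟩ : Fin L.length) j)) ∈
        Bad H X L k ⟨i, hi⟩ := by
      classical
      rw [Bad, mem_filter]
      refine ⟨mem_univ _, ⟨?_, ?_, ?_⟩, fun j hj => (hfit _).2 hj⟩
      · rw [win, List.forall₂_iff_get]
        refine ⟨by simp, ?_⟩
        intro a h2 h3
        simp only [List.get_eq_getElem, List.getElem_ofFn]
        exact (hfit _).1
      · rw [List.nodup_ofFn]
        intro j j' hjj
        exact pos_inj hkn _ (σ.injective hjj)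
      · rw [← hs2]; exact hH
    obtain ⟨x, hx, hne'⟩ := hσ2 ⟨⟨i, hi⟩, ⟨_, hmem⟩⟩
    rw [ES, mem_image] at hx
    obtain ⟨j, -, hj⟩ := hx
    apply hne'
    rw [← hj, EF_pos hk hkn]

end Pool.Agent.KK.H34
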